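import Pool.Agent.Helper30.TR.Spec

set_option autoImplicit false

namespace Pool.Agent.Helper86.TR.CB

open MeasureTheory Set Pool.Agent.Helper30.TR

theorem main : S_CB := by
  classical
  intro S Ω B l hΩ hfin hB hl
  have : IsFiniteMeasure (volume.restrict Ω) := ⟨by
    rw [Measure.restrict_apply_univ]; exact lt_top_iff_ne_top.mpr hfin⟩
  set ν := volume.restrict Ω with hν
  let f : ℤ → ℝ × ℝ → ℝ := fun s => (B s).indicator (fun _ => (1 : ℝ))
  have hf : ∀ s ∈ S, Integrable (f s) ν := fun s hs =>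
    (integrable_const (1 : ℝ)).indicator (hB s hs)
  have hff : ∀ s ∈ S, ∀ s' ∈ S, Integrable (fun x => f s x * f s' x) ν := by
    intro s hs s' hs'
    have : (fun x => f s x * f s' x) = (B s ∩ B s').indicator (fun _ => (1 : ℝ)) := by
      funext x
      simp only [f, indicator_apply, mem_inter_iff]
      by_cases h1 : x ∈ B s <;> by_cases h2 : x ∈ B s' <;> simp [h1, h2]
    rw [this]
    exact (integrable_const (1 : ℝ)).indicator ((hB s hs).inter (hB s' hs'))
  have hi1 : ∀ s ∈ S, ∫ x, f s x ∂ν = ar {x | x ∈ Ω ∧ x ∈ B s} := by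
    intro s hs
    simp only [f]
    rw [integral_indicator_const (1 : ℝ) (hB s hs), smul_eq_mul, mul_one, measureReal_def, hν,
      Measure.restrict_apply (hB s hs)]
    unfold ar
    rw [inter_comm]; rfl
  have hi2 : ∀ s ∈ S, ∀ s' ∈ S, ∫ x, f s x * f s' x ∂ν = ar {x | x ∈ Ω ∧ x ∈ B s ∧ x ∈ B s'} := by
    intro s hs s' hs'
    have h0 : (fun x => f s x * f s' x) = (B s ∩ B s').indicator (fun _ => (1 : ℝ)) := by
      funext x
      simp only [f, indicator_apply, mem_inter_iff]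
      by_cases h1 : x ∈ B s <;> by_cases h2 : x ∈ B s' <;> simp [h1, h2]
    rw [h0, integral_indicator_const (1 : ℝ) ((hB s hs).inter (hB s' hs')), smul_eq_mul, mul_one,
      measureReal_def, hν, Measure.restrict_apply ((hB s hs).inter (hB s' hs'))]
    unfold ar
    rw [inter_comm]; rfl
  have hi0 : ∫ _x : ℝ × ℝ, (1 : ℝ) ∂ν = ar Ω := by
    rw [integral_const, smul_eq_mul, mul_one, measureReal_def, hν, Measure.restrict_apply_univ]
    rfl
  -- the expansion
  have hexp : ∫ x, (∑ s ∈ S, f s x - l) ^ 2 ∂ν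
      = ∑ s ∈ S, ∑ s' ∈ S, ar {x | x ∈ Ω ∧ x ∈ B s ∧ x ∈ B s'} -
      2 * l * ∑ s ∈ S, ar {x | x ∈ Ω ∧ x ∈ B s} + l ^ 2 * ar Ω := by
    have h1 : (fun x => (∑ s ∈ S, f s x - l) ^ 2)
        = fun x => ((∑ s ∈ S, ∑ s' ∈ S, f s x * f s' x) - 2 * l * ∑ s ∈ S, f s x) + l ^ 2 * 1 := by
      funext x
      rw [← Finset.sum_mul_sum]
      ring
    have hI2 : Integrable (fun x => ∑ s ∈ S, ∑ s' ∈ S, f s x * f s' x) ν :=
      integrable_finsetSum _ fun s hs => integrable_finsetSum _ fun s' hs' => hff s hs s' hs'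
    have hI1 : Integrable (fun x => 2 * l * ∑ s ∈ S, f s x) ν :=
      (integrable_finsetSum _ fun s hs => hf s hs).const_mul _
    have hI12 : Integrable (fun x => (∑ s ∈ S, ∑ s' ∈ S, f s x * f s' x)
        - 2 * l * ∑ s ∈ S, f s x) ν := hI2.sub hI1
    have hI0 : Integrable (fun _ : ℝ × ℝ => l ^ 2 * (1 : ℝ)) ν := integrable_const _
    rw [h1, integral_add hI12 hI0, integral_sub hI2 hI1]
    have e1 : ∫ x, ∑ s ∈ S, ∑ s' ∈ S, f s x * f s' x ∂ν
        = ∑ s ∈ S, ∑ s' ∈ S, ar {x | x ∈ Ω ∧ x ∈ B s ∧ x ∈ B s'} := by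
      rw [integral_finsetSum _ fun s hs => integrable_finsetSum _ fun s' hs' => hff s hs s' hs']
      apply Finset.sum_congr rfl
      intro s hs
      rw [integral_finsetSum _ fun s' hs' => hff s hs s' hs']
      exact Finset.sum_congr rfl fun s' hs' => hi2 s hs s' hs'
    have e2 : ∫ x, 2 * l * ∑ s ∈ S, f s x ∂ν = 2 * l * ∑ s ∈ S, ar {x | x ∈ Ω ∧ x ∈ B s} := by
      rw [integral_const_mul, integral_finsetSum _ hf]
      congr 1
      exact Finset.sum_congr rfl fun s hs => hi1 s hs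
    have e3 : ∫ _x : ℝ × ℝ, l ^ 2 * (1 : ℝ) ∂ν = l ^ 2 * ar Ω := by
      rw [integral_const_mul, hi0]
    rw [e1, e2, e3]
  rw [← hexp]
  -- the lower bound
  set Z : Set (ℝ × ℝ) := {x | ∀ s ∈ S, x ∉ B s} with hZ
  have hZm : MeasurableSet Z := by
    have : Z = ⋂ s ∈ S, (B s)ᶜ := by
      ext x; simp [hZ]
    rw [this]
    exact Finset.measurableSet_biInter _ fun s hs => (hB s hs).compl
  have hleft : l ^ 2 * ar {x | x ∈ Ω ∧ ∀ s ∈ S, x ∉ B s} = ∫ x, Z.indicator (fun _ => l ^ 2) x ∂ν := by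
    rw [integral_indicator_const _ hZm, smul_eq_mul, measureReal_def, hν,
      Measure.restrict_apply hZm, mul_comm]
    unfold ar
    rw [inter_comm]; rfl
  rw [hleft]
  apply integral_mono_of_nonneg
  · exact Filter.Eventually.of_forall fun x => indicator_nonneg (fun _ _ => sq_nonneg l) x
  · have h1 : (fun x => (∑ s ∈ S, f s x - l) ^ 2)
        = fun x => ((∑ s ∈ S, ∑ s' ∈ S, f s x * f s' x) - 2 * l * ∑ s ∈ S, f s x) + l ^ 2 * 1 := by
      funext x
      rw [← Finset.sum_mul_sum]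
      ring
    rw [h1]
    exact ((integrable_finsetSum _ fun s hs => integrable_finsetSum _ fun s' hs' =>
      hff s hs s' hs').sub ((integrable_finsetSum _ fun s hs => hf s hs).const_mul _)).add
      ((integrable_const _).const_mul _)
  · refine Filter.Eventually.of_forall fun x => ?_
    by_cases hx : x ∈ Z
    · have h2 : ∑ s ∈ S, f s x = 0 := Finset.sum_eq_zero fun s hs =>
        indicator_of_notMem (hx s hs) _
      simp only [indicator_of_mem hx, h2]
      apply le_of_eq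
      ring
    · simp only [indicator_of_notMem hx]
      exact sq_nonneg _

end Pool.Agent.Helper86.TR.CB
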