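import Pool.Agent.Helper30.TR.Spec

set_option autoImplicit false

namespace Pool.Agent.Helper86.TR.DA

open MeasureTheory Set Pool.Agent.Helper30.TR

theorem meas_Ds (r : ℝ) : MeasurableSet (Ds r) := by
  unfold Ds
  exact measurableSet_le (by fun_prop) (by fun_prop)

theorem main : S_DA := by
  intro r hr
  have h1 : Complex.measurableEquivRealProd ⁻¹' (Ds r) = Metric.closedBall (0 : ℂ) r := by
    ext z
    rw [mem_preimage, mem_closedBall_zero_iff, ← sq_le_sq₀ (norm_nonneg z) hr, Complex.sq_norm,
      Complex.normSq_apply]
    simp only [Ds, mem_ofPred_eq, Complex.measurableEquivRealProd_apply]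
    constructor <;> intro h <;> nlinarith
  have h2 := Complex.volume_preserving_equiv_real_prod.measure_preimage
    (meas_Ds r).nullMeasurableSet
  unfold ar
  rw [← h2, h1, Complex.volume_closedBall, ENNReal.toReal_mul, ENNReal.toReal_pow,
    ENNReal.toReal_ofReal hr]
  simp
  ring

end Pool.Agent.Helper86.TR.DA
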