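import Pool.Agent.Helper30.TR.Spec

set_option autoImplicit false

namespace Pool.Agent.Helper86.TR.HS

open MeasureTheory Set Pool.Agent.Helper30.TR

theorem step (L : ℕ) : 2 * Real.sqrt L + 1 / ((L : ℝ) + 1) ≤ 2 * Real.sqrt ((L + 1 : ℕ) : ℝ) := by
  push_cast
  set a := Real.sqrt (L : ℝ) with ha
  set b := Real.sqrt ((L : ℝ) + 1) with hb
  have ha0 : 0 ≤ a := Real.sqrt_nonneg _
  have hb0 : 0 ≤ b := Real.sqrt_nonneg _
  have ha2 : a ^ 2 = L := Real.sq_sqrt (by positivity)
  have hb2 : b ^ 2 = L + 1 := Real.sq_sqrt (by positivity)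
  have hb1 : 1 ≤ b := by
    rw [hb]; exact Real.one_le_sqrt.mpr (by linarith [(Nat.cast_nonneg L : (0 : ℝ) ≤ L)])
  have hab : a ≤ b := Real.sqrt_le_sqrt (by linarith)
  rw [← hb2]
  have h1 : 1 / b ^ 2 ≤ 2 * (b - a) := by
    rw [div_le_iff₀ (by positivity)]
    have h2 : (b - a) * (b + a) = 1 := by nlinarith
    have h3 : 0 ≤ b - a := by linarith
    have h4 : (b - a) * (b + a) ≤ (b - a) * (2 * b ^ 2) := by
      apply mul_le_mul_of_nonneg_left _ h3
      nlinarith
    nlinarith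
  linarith

theorem up (s : ℤ) (L : ℕ) :
    ∑ s' ∈ Finset.Ioc s (s + L), 1 / |((s' : ℝ) - s)| ≤ 2 * Real.sqrt L := by
  induction L with
  | zero => simp
  | succ L ih =>
    have h1 : Finset.Ioc s (s + ((L + 1 : ℕ) : ℤ)) = insert (s + L + 1) (Finset.Ioc s (s + L)) := by
      ext t; simp only [Finset.mem_Ioc, Finset.mem_insert]; push_cast; omega
    rw [h1, Finset.sum_insert (by simp)]
    have h2 : 1 / |(((s + L + 1 : ℤ) : ℝ) - s)| = 1 / ((L : ℝ) + 1) := by
      push_cast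
      rw [show (s : ℝ) + L + 1 - s = L + 1 by ring, abs_of_nonneg (by positivity)]
    rw [h2]
    linarith [step L]

theorem dn (s : ℤ) (L : ℕ) :
    ∑ s' ∈ Finset.Ico (s - L) s, 1 / |((s' : ℝ) - s)| ≤ 2 * Real.sqrt L := by
  induction L with
  | zero => simp
  | succ L ih =>
    have h1 : Finset.Ico (s - ((L + 1 : ℕ) : ℤ)) s = insert (s - L - 1) (Finset.Ico (s - L) s) := by
      ext t; simp only [Finset.mem_Ico, Finset.mem_insert]; push_cast; omega
    rw [h1, Finset.sum_insert (by simp)]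
    have h2 : 1 / |(((s - L - 1 : ℤ) : ℝ) - s)| = 1 / ((L : ℝ) + 1) := by
      push_cast
      rw [show (s : ℝ) - L - 1 - s = -(L + 1) by ring, abs_neg, abs_of_nonneg (by positivity)]
    rw [h2]
    linarith [step L]

theorem main : S_HS := by
  intro L s0
  have h1 : ∀ s ∈ Finset.Ioc s0 (s0 + L),
      ∑ s' ∈ (Finset.Ioc s0 (s0 + L)).filter (fun s' => s' ≠ s), 1 / |((s' : ℝ) - s)|
        ≤ 4 * Real.sqrt L := by
    intro s hs
    rw [Finset.mem_Ioc] at hs
    have h2 : (Finset.Ioc s0 (s0 + L)).filter (fun s' => s' ≠ s)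
        ⊆ Finset.Ioc s (s + L) ∪ Finset.Ico (s - L) s := by
      intro t ht
      simp only [Finset.mem_filter, Finset.mem_Ioc, Finset.mem_union, Finset.mem_Ico] at ht ⊢
      omega
    have h3 : Disjoint (Finset.Ioc s (s + L)) (Finset.Ico (s - L) s) := by
      rw [Finset.disjoint_left]
      intro t ht ht'
      simp only [Finset.mem_Ioc, Finset.mem_Ico] at ht ht'
      omega
    calc _ ≤ ∑ s' ∈ Finset.Ioc s (s + L) ∪ Finset.Ico (s - L) s, 1 / |((s' : ℝ) - s)| :=
          Finset.sum_le_sum_of_subset_of_nonneg h2 fun i _ _ => by positivity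
      _ = _ := Finset.sum_union h3
      _ ≤ 4 * Real.sqrt L := by linarith [up s L, dn s L]
  refine (Finset.sum_le_sum h1).trans ?_
  rw [Finset.sum_const, nsmul_eq_mul, Int.card_Ioc]
  simp
  apply le_of_eq
  ring

end Pool.Agent.Helper86.TR.HS
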