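import Pool.Agent.Helper30.TR.Spec

set_option autoImplicit false

namespace Pool.Agent.Helper86.TR.SN

open MeasureTheory Set Pool.Agent.Helper30.TR

theorem main : S_SN := by
  intro n s s' hn h
  have hn' : (0 : ℝ) < n := by exact_mod_cast hn
  have h1 : th n s' - th n s = Real.pi * ((s' : ℝ) - s) / n := by
    unfold th; ring
  have h2 : 2 * |(s' : ℝ) - s| ≤ n := by exact_mod_cast h
  have hpi := Real.pi_pos
  set u : ℝ := |Real.pi * ((s' : ℝ) - s) / n| with hu
  have hu1 : u = Real.pi * |(s' : ℝ) - s| / n := by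
    rw [hu, abs_div, abs_mul, abs_of_pos hpi, abs_of_pos hn']
  have hu2 : u ≤ Real.pi / 2 := by
    rw [hu1, div_le_div_iff₀ hn' (by norm_num)]
    nlinarith
  have hu0 : 0 ≤ u := abs_nonneg _
  have h3 := Real.mul_le_sin hu0 hu2
  have h4 : |Real.sin (Real.pi * ((s' : ℝ) - s) / n)| = Real.sin u := by
    rw [hu]
    rcases le_or_gt 0 (Real.pi * ((s' : ℝ) - s) / n) with h5 | h5
    · rw [abs_of_nonneg h5]
      apply abs_of_nonneg
      apply Real.sin_nonneg_of_nonneg_of_le_pi h5
      have : Real.pi * ((s' : ℝ) - s) / n ≤ u := le_abs_self _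
      linarith
    · rw [abs_of_neg h5, Real.sin_neg]
      apply abs_of_nonpos
      have h6 : 0 ≤ Real.sin (-(Real.pi * ((s' : ℝ) - s) / n)) := by
        apply Real.sin_nonneg_of_nonneg_of_le_pi (by linarith)
        have : -(Real.pi * ((s' : ℝ) - s) / n) ≤ u := neg_le_abs _
        linarith
      rw [Real.sin_neg] at h6
      linarith
  rw [h1, h4]
  refine le_trans (le_of_eq ?_) h3
  rw [hu1]
  field_simp

end Pool.Agent.Helper86.TR.SN
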