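import Pool.Agent.Helper30.TR.Spec
import Pool.Agent.Helper86.TR.DA
import Pool.Agent.Helper86.TR.SN
import Pool.Agent.Helper86.TR.HS
import Pool.Agent.Helper86.TR.CB

set_option autoImplicit false

namespace Pool.Agent.Helper86.TR.SM

open MeasureTheory Set Pool.Agent.Helper30.TR

theorem fin (N L q σ ρ l D : ℝ) (hN : 10 ^ 10 ≤ N) (hL1 : L ≤ N / 12) (hL2 : N / 13 ≤ L)
    (hq : q ^ 2 = L) (hq0 : 0 ≤ q) (hσ : σ = 2100 / N ^ 2) (hρ : ρ = σ * N / Real.pi)
    (hl : l = ρ * L) (hD : D = Real.pi / 100) :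
    0 < l ∧ L * (1.02 * ρ * D + σ) + L * (L * (1.02 * ρ * (1.02 * ρ * D + σ)))
      + 5 * σ * N / 2 * (0.204 * ρ + 5 * σ) * (4 * L * q) - 2 * l * (L * (ρ * D - σ)) + l ^ 2 * D
      ≤ l ^ 2 * (1 / 10 * D) := by
  have hpi1 := Real.pi_gt_d2
  have hpi2 := Real.pi_lt_d2
  have hN0 : 0 < N := by linarith [show (0 : ℝ) < 10 ^ 10 by norm_num]
  have hL0 : 0 < L := lt_of_lt_of_le (by positivity) hL2
  have hσ0 : 0 < σ := by rw [hσ]; positivity
  have hρ0 : 0 < ρ := by rw [hρ]; positivity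
  have hl0 : 0 < l := by rw [hl]; positivity
  have hσN : σ * N = Real.pi * ρ := by rw [hρ]; field_simp
  have hσN2 : σ * N * N = 2100 := by rw [hσ]; field_simp
  -- l
  have hlpi : l * Real.pi * N = 2100 * L := by
    rw [hl]
    have : ρ * L * Real.pi * N = (Real.pi * ρ) * N * L := by ring
    rw [this, ← hσN, hσN2]
  have hl51 : 51 ≤ l := by
    by_contra hlt
    push Not at hlt
    have h1 : l * Real.pi * N < 51 * 3.15 * N := by
      have : l * Real.pi < 51 * 3.15 := by nlinarith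
      nlinarith
    rw [hlpi] at h1
    nlinarith
  have hl57 : l ≤ 57 := by
    by_contra hlt
    push Not at hlt
    have h1 : 57 * 3.14 * N < l * Real.pi * N := by
      have : 57 * 3.14 < l * Real.pi := by nlinarith
      nlinarith
    rw [hlpi] at h1
    nlinarith
  -- q
  have hq27 : 27000 ≤ q := by
    by_contra hlt
    push Not at hlt
    have h1 : q ^ 2 < 27000 ^ 2 := by nlinarith
    rw [hq] at h1
    nlinarith
  set r := ρ * q with hr
  have hr0 : 0 ≤ r := by positivity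
  have hrq : r * q = l := by rw [hr, hl, ← hq]; ring
  have hr1 : r * 27000 ≤ l := by rw [← hrq]; nlinarith
  set ε := L * σ with hε
  have hε0 : 0 ≤ ε := by positivity
  have hε1 : ε * 10 ^ 7 ≤ 1 := by
    have h1 : ε * N ≤ 175 := by
      have : ε * N * N ≤ 175 * N := by
        calc ε * N * N = L * (σ * N * N) := by rw [hε]; ring
          _ = L * 2100 := by rw [hσN2]
          _ ≤ (N / 12) * 2100 := by nlinarith
          _ = 175 * N := by ring
      exact le_of_mul_le_mul_right this hN0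
    nlinarith
  set e2 := σ * q with he2
  have he20 : 0 ≤ e2 := by positivity
  have he2ε : e2 ≤ ε := by
    rw [he2, hε, ← hq]
    nlinarith [mul_pos hσ0 (show 0 < q by linarith)]
  refine ⟨hl0, ?_⟩
  have hT : L * (1.02 * ρ * D + σ) + L * (L * (1.02 * ρ * (1.02 * ρ * D + σ)))
      + 5 * σ * N / 2 * (0.204 * ρ + 5 * σ) * (4 * L * q) - 2 * l * (L * (ρ * D - σ)) + l ^ 2 * D
      = 0.0404 * l ^ 2 * D + 1.02 * l * D + ε * (1 + 3.02 * l)
        + 10 * Real.pi * l * (0.204 * r + 5 * e2) := by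
    have h3 : 5 * σ * N / 2 * (0.204 * ρ + 5 * σ) * (4 * L * q)
        = 10 * Real.pi * l * (0.204 * r + 5 * e2) := by
      have : 5 * σ * N / 2 * (0.204 * ρ + 5 * σ) * (4 * L * q)
        = 10 * (σ * N) * L * q * (0.204 * ρ + 5 * σ) := by ring
      rw [this, hσN, hr, he2, hl]
      ring
    rw [h3, hε, hl]
    ring
  rw [hT]
  have hD1 : 0.0314 ≤ D := by rw [hD]; linarith
  have hD2 : D ≤ 0.0315 := by rw [hD]; linarith
  have h4 : 10 * Real.pi * l * (0.204 * r + 5 * e2) ≤ 10 * 3.15 * l * (0.204 * (l / 27000) + 5 * ε) := by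
    have h5 : r ≤ l / 27000 := by linarith
    gcongr
  have h6 : 10 * 3.15 * l * (0.204 * (l / 27000) + 5 * ε) = l ^ 2 * (31.5 * 0.204 / 27000) + 157.5 * (l * ε) := by
    ring
  have hε2 : ε ≤ 1 / 10 ^ 7 := by rw [le_div_iff₀ (by norm_num)]; exact hε1
  have h7 : l * ε ≤ 57 / 10 ^ 7 := by
    calc l * ε ≤ 57 * (1 / 10 ^ 7) := mul_le_mul hl57 hε2 hε0 (by norm_num)
      _ = 57 / 10 ^ 7 := by ring
  have h9 : 0.0016 ≤ 0.0596 * D - 31.5 * 0.204 / 27000 := by norm_num at hD1 ⊢; linarith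
  have h11 : 51 * l ≤ l ^ 2 := by
    rw [sq]; exact mul_le_mul_of_nonneg_right hl51 hl0.le
  have h8 : 0.0016 * (51 * l) ≤ (0.0596 * D - 31.5 * 0.204 / 27000) * l ^ 2 :=
    mul_le_mul h9 h11 (by positivity) (by linarith)
  have h12 : (0.0596 * D - 31.5 * 0.204 / 27000) * l ^ 2
      = 0.0596 * (l ^ 2 * D) - l ^ 2 * (31.5 * 0.204 / 27000) := by ring
  have h10 : 1.02 * l * D ≤ 0.0322 * l := by
    have : 1.02 * D ≤ 0.0322 := by linarith
    calc 1.02 * l * D = (1.02 * D) * l := by ring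
      _ ≤ 0.0322 * l := mul_le_mul_of_nonneg_right this hl0.le
  have h13 : ε * (1 + 3.02 * l) = ε + 3.02 * (l * ε) := by ring
  have h14 : 0.0404 * l ^ 2 * D = 0.0404 * (l ^ 2 * D) := by ring
  have h15 : l ^ 2 * (1 / 10 * D) = 0.1 * (l ^ 2 * D) := by ring
  rw [h13, h14, h15]
  rw [h12] at h8
  rw [h6] at h4
  generalize l ^ 2 * D = A at *
  generalize l * ε = A2 at *
  generalize l ^ 2 = A3 at *
  linarith

theorem main (hYM : S_YM) (hYU : S_YU) (hYL : S_YL) (hSU : S_SU) (hSL : S_SL) (hSP : S_SP) :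
    S_SM := by
  classical
  refine ⟨10 ^ 10, fun n hn s0 => ?_⟩
  have hN : (10 : ℝ) ^ 10 ≤ n := by exact_mod_cast hn
  have hN0 : (0 : ℝ) < n := by linarith [show (0 : ℝ) < 10 ^ 10 by norm_num]
  have hn0 : 0 < n := by exact_mod_cast hN0
  set σ : ℝ := 2100 / (n : ℝ) ^ 2 with hσ
  set L : ℕ := n / 12 with hL
  set ρ : ℝ := σ * n / Real.pi with hρ
  set l : ℝ := ρ * L with hl
  set D : ℝ := ar (Ds (1 / 10)) with hD
  have hDeq : D = Real.pi / 100 := by
    rw [hD, DA.main _ (by norm_num)]; ring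
  have hL1 : (L : ℝ) ≤ n / 12 := by
    rw [le_div_iff₀ (by norm_num)]
    have : L * 12 ≤ n := Nat.div_mul_le_self n 12
    exact_mod_cast this
  have hL2 : (n : ℝ) / 13 ≤ L := by
    rw [div_le_iff₀ (by norm_num)]
    have h1 : n ≤ L * 13 := by
      have h2 : n < (L + 1) * 12 := by rw [hL]; omega
      have h3 : 12 ≤ L := by rw [hL]; omega
      omega
    exact_mod_cast h1
  have hσ0 : 0 < σ := by rw [hσ]; positivity
  have hρ0 : 0 < ρ := by rw [hρ]; positivity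
  have hσn : σ * n ≤ 1 / 10 := by
    have h1 : σ * n = 2100 / n := by rw [hσ]; field_simp
    rw [h1, div_le_iff₀ hN0]
    linarith [show (0 : ℝ) ≤ 10 ^ 10 by norm_num]
  have hn100 : 100 ≤ n := by omega
  have hq := Real.sq_sqrt (Nat.cast_nonneg L : (0 : ℝ) ≤ L)
  obtain ⟨hl0, hfin⟩ := fin n L (Real.sqrt L) σ ρ l D hN hL1 hL2 hq (Real.sqrt_nonneg _) hσ hρ hl hDeq
  set B : ℤ → Set (ℝ × ℝ) := fun s => {x | hh (th n s) x ∈ YY n σ s} with hB
  have hBm : ∀ s, MeasurableSet (B s) := by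
    intro s
    have : Measurable (hh (th n s)) := by unfold hh; fun_prop
    exact this (hYM n σ s)
  have hΩ : MeasurableSet (Ds (1 / 10)) := DA.meas_Ds _
  have hfinite : volume (Ds (1 / 10)) ≠ ⊤ := by
    intro h
    have h1 : D = 0 := by rw [hD]; unfold ar; rw [h]; rfl
    rw [hDeq] at h1
    have := Real.pi_pos
    linarith
  -- the counts
  have hA1u : ∀ s : ℤ, ar {x | x ∈ Ds (1 / 10) ∧ x ∈ B s} ≤ 1.02 * ρ * D + σ := by
    intro s
    have h1 := hSU (th n s) (1.02 * ρ) (5 * σ) (1 / 10) (YY n σ s) (by positivity) (by positivity)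
      (by norm_num) (hYM n σ s) (fun w hw0 hw1 => by
        have h2 := hYU n σ s (-w) w hn100 hσ0 hσn (by linarith) (by linarith) hw1
        calc len (YY n σ s ∩ Icc (-w) w) ≤ 1.02 * (σ * n / Real.pi) * (w - -w) + 5 * σ := h2
          _ = 1.02 * ρ * (2 * w) + 5 * σ := by rw [hρ]; ring)
    calc ar {x | x ∈ Ds (1 / 10) ∧ x ∈ B s}
        ≤ 1.02 * ρ * ar (Ds (1 / 10)) + 5 * σ * (2 * (1 / 10)) := h1
      _ = 1.02 * ρ * D + σ := by rw [← hD]; ring
  have hA1l : ∀ s : ℤ, ρ * D - σ ≤ ar {x | x ∈ Ds (1 / 10) ∧ x ∈ B s} := by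
    intro s
    have h1 := hSL (th n s) ρ (5 * σ) (1 / 10) (YY n σ s) hρ0.le (by positivity)
      (by norm_num) (hYM n σ s) (fun w hw0 hw1 => by
        have h2 := hYL n σ s (-w) w hn100 hσ0 hσn (by linarith) (by linarith) hw1
        calc ρ * (2 * w) - 5 * σ = (σ * n / Real.pi) * (w - -w) - 5 * σ := by rw [hρ]; ring
          _ ≤ _ := h2)
    calc ρ * D - σ = ρ * ar (Ds (1 / 10)) - 5 * σ * (2 * (1 / 10)) := by rw [← hD]; ring
      _ ≤ _ := h1
  have hA2 : ∀ s s' : ℤ, s' ≠ s → 2 * |s' - s| ≤ n →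
      ar {x | x ∈ Ds (1 / 10) ∧ x ∈ B s ∧ x ∈ B s'} ≤ 1.02 * ρ * (1.02 * ρ * D + σ)
        + 5 * σ * n / 2 * (0.204 * ρ + 5 * σ) * (1 / |((s' : ℝ) - s)|) := by
    intro s s' hne hle
    have hsn := SN.main n s s' hn0 hle
    have hdpos : 0 < |((s' : ℝ) - s)| := by
      apply abs_pos.mpr
      intro h
      apply hne
      have : (s' : ℝ) = s := by linarith
      exact_mod_cast this
    have hspos : 0 < |Real.sin (th n s' - th n s)| := lt_of_lt_of_le (by positivity) hsn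
    have h1 := hSP (th n s) (th n s') (1.02 * ρ) (5 * σ) (1 / 10) (YY n σ s) (YY n σ s')
      (by positivity) (by positivity) (by norm_num) (hYM n σ s) (hYM n σ s')
      (abs_pos.mp hspos) (fun y1 y2 hy1 hy12 hy2 => hYU n σ s' y1 y2 hn100 hσ0 hσn hy1 hy12 hy2)
    have h2 : len (YY n σ s ∩ Icc (-(1 / 10)) (1 / 10)) ≤ 0.204 * ρ + 5 * σ := by
      have h3 := hYU n σ s (-(1 / 10)) (1 / 10) hn100 hσ0 hσn le_rfl (by norm_num) le_rfl
      calc _ ≤ 1.02 * (σ * n / Real.pi) * (1 / 10 - -(1 / 10)) + 5 * σ := h3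
        _ = 0.204 * ρ + 5 * σ := by rw [hρ]; ring
    have h4 : 5 * σ / |Real.sin (th n s' - th n s)| ≤ 5 * σ * n / 2 * (1 / |((s' : ℝ) - s)|) := by
      rw [div_le_iff₀ hspos]
      calc 5 * σ = 5 * σ * n / 2 * (1 / |((s' : ℝ) - s)|) * (2 * |((s' : ℝ) - s)| / n) := by
            field_simp
        _ ≤ 5 * σ * n / 2 * (1 / |((s' : ℝ) - s)|) * |Real.sin (th n s' - th n s)| := by
            gcongr
    have h0 : 0 ≤ len (YY n σ s ∩ Icc (-(1 / 10)) (1 / 10)) := ENNReal.toReal_nonneg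
    calc ar {x | x ∈ Ds (1 / 10) ∧ x ∈ B s ∧ x ∈ B s'}
        ≤ 1.02 * ρ * ar {x | x ∈ Ds (1 / 10) ∧ hh (th n s) x ∈ YY n σ s}
          + 5 * σ / |Real.sin (th n s' - th n s)| * len (YY n σ s ∩ Icc (-(1 / 10)) (1 / 10)) := h1
      _ ≤ 1.02 * ρ * (1.02 * ρ * D + σ)
          + 5 * σ * n / 2 * (1 / |((s' : ℝ) - s)|) * (0.204 * ρ + 5 * σ) := by
          apply add_le_add
          · exact mul_le_mul_of_nonneg_left (hA1u s) (by positivity)
          · exact mul_le_mul h4 h2 h0 (by positivity)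
      _ = _ := by ring
  -- the sums
  set S : Finset ℤ := Finset.Ioc s0 (s0 + (L : ℤ)) with hS
  have hcard : (S.card : ℝ) = L := by
    rw [hS, Int.card_Ioc]; simp
  have hD0 : 0 ≤ D := by rw [hDeq]; have := Real.pi_pos; positivity
  have hcb := CB.main S (Ds (1 / 10)) B l hΩ hfinite (fun s _ => hBm s) hl0.le
  have hsum1 : L * (ρ * D - σ) ≤ ∑ s ∈ S, ar {x | x ∈ Ds (1 / 10) ∧ x ∈ B s} := by
    rw [← hcard, ← nsmul_eq_mul, ← Finset.sum_const]
    exact Finset.sum_le_sum fun s _ => hA1l s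
  have hsum2 : ∑ s ∈ S, ∑ s' ∈ S, ar {x | x ∈ Ds (1 / 10) ∧ x ∈ B s ∧ x ∈ B s'}
      ≤ L * (1.02 * ρ * D + σ) + L * (L * (1.02 * ρ * (1.02 * ρ * D + σ)))
      + 5 * σ * n / 2 * (0.204 * ρ + 5 * σ) * (4 * L * Real.sqrt L) := by
    have hinner : ∀ s ∈ S, ∑ s' ∈ S, ar {x | x ∈ Ds (1 / 10) ∧ x ∈ B s ∧ x ∈ B s'}
        ≤ (1.02 * ρ * D + σ) + L * (1.02 * ρ * (1.02 * ρ * D + σ))
          + 5 * σ * n / 2 * (0.204 * ρ + 5 * σ)
            * ∑ s' ∈ S.filter (fun s' => s' ≠ s), 1 / |((s' : ℝ) - s)| := by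
      intro s hs
      rw [← Finset.sum_filter_add_sum_filter_not S (fun s' => s' ≠ s)]
      have h1 : S.filter (fun s' => ¬ s' ≠ s) = {s} := by
        ext t
        simp only [Finset.mem_filter, not_not, Finset.mem_singleton]
        exact ⟨fun h => h.2, fun h => ⟨h ▸ hs, h⟩⟩
      rw [h1, Finset.sum_singleton]
      have h2 : ar {x | x ∈ Ds (1 / 10) ∧ x ∈ B s ∧ x ∈ B s} ≤ 1.02 * ρ * D + σ := by
        have : {x | x ∈ Ds (1 / 10) ∧ x ∈ B s ∧ x ∈ B s} = {x | x ∈ Ds (1 / 10) ∧ x ∈ B s} := by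
          ext x; simp
        rw [this]
        exact hA1u s
      have h3 : ∑ s' ∈ S.filter (fun s' => s' ≠ s), ar {x | x ∈ Ds (1 / 10) ∧ x ∈ B s ∧ x ∈ B s'}
          ≤ ∑ s' ∈ S.filter (fun s' => s' ≠ s), (1.02 * ρ * (1.02 * ρ * D + σ)
        + 5 * σ * n / 2 * (0.204 * ρ + 5 * σ) * (1 / |((s' : ℝ) - s)|)) := by
        refine Finset.sum_le_sum fun s' hs' => ?_
        rw [Finset.mem_filter] at hs'
        apply hA2 s s' hs'.2
        have h4 := hs'.1
        rw [hS, Finset.mem_Ioc] at h4 hs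
        have h5 : |s' - s| ≤ L := abs_le.mpr ⟨by omega, by omega⟩
        omega
      rw [Finset.sum_add_distrib, Finset.sum_const, nsmul_eq_mul, ← Finset.mul_sum] at h3
      have h6 : ((S.filter (fun s' => s' ≠ s)).card : ℝ) ≤ L := by
        rw [← hcard]
        exact_mod_cast Finset.card_filter_le _ _
      have h7 : ((S.filter (fun s' => s' ≠ s)).card : ℝ) * (1.02 * ρ * (1.02 * ρ * D + σ))
          ≤ L * (1.02 * ρ * (1.02 * ρ * D + σ)) :=
        mul_le_mul_of_nonneg_right h6 (by positivity)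
      linarith
    refine (Finset.sum_le_sum hinner).trans ?_
    rw [Finset.sum_add_distrib, Finset.sum_const, nsmul_eq_mul, hcard, ← Finset.mul_sum]
    have h8 := HS.main L s0
    have h9 : 5 * σ * n / 2 * (0.204 * ρ + 5 * σ)
        * ∑ s ∈ S, ∑ s' ∈ S.filter (fun s' => s' ≠ s), 1 / |((s' : ℝ) - s)|
        ≤ 5 * σ * n / 2 * (0.204 * ρ + 5 * σ) * (4 * L * Real.sqrt L) :=
      mul_le_mul_of_nonneg_left h8 (by positivity)
    linarith
  have hset : {x | x ∈ Ds (1 / 10) ∧ ∀ s ∈ S, hh (th n s) x ∉ YY n σ s}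
      = {x | x ∈ Ds (1 / 10) ∧ ∀ s ∈ S, x ∉ B s} := rfl
  rw [hset]
  have hkey : l ^ 2 * ar {x | x ∈ Ds (1 / 10) ∧ ∀ s ∈ S, x ∉ B s} ≤ l ^ 2 * (1 / 10 * D) := by
    refine hcb.trans (le_trans ?_ hfin)
    have h10 : 2 * l * (L * (ρ * D - σ)) ≤ 2 * l * ∑ s ∈ S, ar {x | x ∈ Ds (1 / 10) ∧ x ∈ B s} :=
      mul_le_mul_of_nonneg_left hsum1 (by positivity)
    linarith
  exact le_of_mul_le_mul_left hkey (by positivity)

end Pool.Agent.Helper86.TR.SM
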